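import Pool.Agent.Helper50.EdgeSym.Main

/-! # MP_84ee99_co (own statement, in the words of the problem file)

There are a convex polytope `P` in Euclidean 3-space and a symmetry `σ` of its face lattice which keeps all edge
lengths of `P`, such that for EVERY polytope `Q` and every isomorphism `φ` of the face lattices of `P` and `Q` with all
corresponding edge lengths equal, the symmetry `φ σ φ⁻¹` of `Q` keeps all edge lengths of `Q`, but no isometry of
Euclidean 3-space induces it. In particular the answer to Q1 is negative.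

`P` is the hull of `a = (30,10,0)`, `b = (30,-10,0)`, `c = (15,5,0)`, `d = (9,13,0)`, `v = (0,0,10)`, `w = (37,0,1)`, and
`σ` exchanges `a` with `b` and `c` with `d`. -/

set_option autoImplicit false

namespace Pool.Agent.Results.MP_84ee99_co.UnrealizableSymmetry

open Pool.Agent.Helper50.EdgeSym

theorem result : ∃ (P : Set (EuclideanSpace ℝ (Fin 3))) (σ : Faces P ≃o Faces P),
    IsPolytope P ∧ KeepsLengths σ ∧
    ∀ (Q : Set (EuclideanSpace ℝ (Fin 3))) (φ : Faces P ≃o Faces Q), IsPolytope Q → KeepsLengths φ →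
      KeepsLengths (φ.symm.trans (σ.trans φ)) ∧ ¬ Realized (φ.symm.trans (σ.trans φ)) := by
  obtain ⟨σ, hσ⟩ := exists_auto
  have h1 : (OrderIso.refl (Faces K)).symm.trans (σ.trans (OrderIso.refl (Faces K))) = σ := rfl
  refine ⟨K, σ, K_polytope, ?_, fun Q φ hQ hφ => main σ hσ hQ.1 φ hφ⟩
  have h2 := (main σ hσ K_hull (OrderIso.refl (Faces K)) (keeps_refl K)).1
  rwa [h1] at h2

/-- the negated form of the question, word by word -/
theorem negated_form : ∃ P : Set (EuclideanSpace ℝ (Fin 3)), IsPolytope P ∧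
    ∀ (Q : Set (EuclideanSpace ℝ (Fin 3))) (φ : Faces P ≃o Faces Q), IsPolytope Q → KeepsLengths φ →
      ∃ σ : Faces Q ≃o Faces Q, KeepsLengths σ ∧ ¬ Realized σ := by
  obtain ⟨P, σ, hP, -, h⟩ := result
  exact ⟨P, hP, fun Q φ hQ hφ => ⟨_, (h Q φ hQ hφ).1, (h Q φ hQ hφ).2⟩⟩

end Pool.Agent.Results.MP_84ee99_co.UnrealizableSymmetry
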